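import Pool.Agent.K7.H74.AG.Stm

set_option autoImplicit false

/-!
# Job SBASE: the bounds for the level sets, `i = 0` and `t = 0`
-/

open MeasureTheory Finset
open Pool.Agent.K7.H74.AG
open Pool.Agent.K7.H74.AF (lo blk Box mx e)

namespace Pool.Agent.K7.H94.AG

theorem sbase_zero (hS : StSplit) (k : ℕ) (δ : ℝ) (hδ : 0 < δ) (t : ℕ) (a : Fin t → ℝ) :
    SS k t 0 δ a := by
  refine ⟨2, fun b _ J l hJ _ => ?_⟩
  refine (hS.2.2.2.2.1 k t a b l).trans (ENNReal.ofReal_le_ofReal ?_)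
  have h3 : (1 : ℝ) ≤ (3 : ℝ) ^ mx b := one_le_pow₀ (by norm_num)
  have h3J : (1 : ℝ) ≤ (3 : ℝ) ^ J := one_le_pow₀ (by norm_num)
  have hmono : (3 : ℝ) ^ mx b ≤ (3 : ℝ) ^ J := pow_le_pow_right₀ (by norm_num) hJ
  have h1 : ((3 : ℝ) ^ mx b) ^ t ≤ ((3 : ℝ) ^ J) ^ ((k : ℝ) + δ) * ((3 : ℝ) ^ J) ^ ((t : ℝ) - k) := by
    rw [← Real.rpow_add (by positivity)]
    have : ((k : ℝ) + δ + ((t : ℝ) - k)) = (t : ℝ) + δ := by ring
    rw [this]
    calc ((3 : ℝ) ^ mx b) ^ t ≤ ((3 : ℝ) ^ J) ^ t := pow_le_pow_left₀ (by positivity) hmono _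
      _ = ((3 : ℝ) ^ J) ^ (t : ℝ) := by rw [Real.rpow_natCast]
      _ ≤ ((3 : ℝ) ^ J) ^ ((t : ℝ) + δ) := Real.rpow_le_rpow_of_exponent_le h3J (by linarith)
  rw [pow_zero, pow_one, mul_div_assoc, mul_assoc]
  push_cast
  refine mul_le_mul_of_nonneg_left ?_ (by norm_num)
  rw [← mul_div_assoc]
  exact div_le_div_of_nonneg_right h1 (by positivity)

/-- JOB SBASE -/
theorem sbase (hS : StSplit) : StSbase := by
  intro k i δ hk hδ
  refine ⟨fun t a => sbase_zero hS k δ hδ t a, fun a => ?_⟩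
  rcases Nat.eq_zero_or_pos i with rfl | hi
  · exact sbase_zero hS k δ hδ 0 a
  · refine ⟨2, fun b _ J l hJ h => ?_⟩
    have h3J : (1 : ℝ) ≤ (3 : ℝ) ^ J := one_le_pow₀ (by norm_num)
    have h2 : (2 : ℝ) ≤ 2 ^ l := by
      rcases h with h | h
      · omega
      · refine le_trans ?_ h
        push_cast
        have : (1 : ℝ) ≤ ((3 : ℝ) ^ J) ^ ((i : ℝ) - 1 + δ) := by
          apply Real.one_le_rpow h3J
          have : (1 : ℝ) ≤ i := by exact_mod_cast hi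
          linarith
        linarith
    have hempty : Lv k a b l = ∅ := by
      ext τ
      simp only [Lv, Set.mem_setOf_eq, Set.mem_empty_iff_false, iff_false, not_le]
      have := hS.2.1 k 0 a b 1 τ
      rw [pow_zero] at this
      linarith
    rw [hempty, measure_empty]
    exact bot_le

end Pool.Agent.K7.H94.AG
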