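import Mathlib
import Pool.Agent.K7.H74.AG.Stm

set_option autoImplicit false

open MeasureTheory Finset

namespace Pool.Agent.K7.H94.AG

open Pool.Agent.K7.H74.AG
open Pool.Agent.K7.H74.AF (lo blk Box mx e)

theorem form (Z : ℝ) (hZ : 0 < Z) (k t i l : ℕ) (δ : ℝ) :
    Z ^ ((k : ℝ) + δ) * (Z ^ ((t : ℝ) - k) / 2 ^ l) ^ (2 ^ i) =
      Z ^ ((k : ℝ) + δ + ((t : ℝ) - k) * 2 ^ i) / (2 ^ l) ^ (2 ^ i) := by
  rw [div_pow, ← Real.rpow_natCast (Z ^ ((t : ℝ) - k)) (2 ^ i), ← Real.rpow_mul hZ.le, mul_div_assoc',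
    ← Real.rpow_add hZ]
  push_cast
  rfl

/-- a level set which is not empty: the level set two levels lower contains an interval of length `3 / 2` -/
theorem big (k t l : ℕ) (ξ : Fin t → ℝ) (b : Fin t → ℕ) (h : (Lv k ξ b (l + 2)).Nonempty) :
    ENNReal.ofReal (3 / 2) ≤ volume (Lv k ξ b l) := by
  classical
  obtain ⟨τ, hτ⟩ := h
  have hτ' : (2 : ℝ) ^ (l + 2) ≤ cn k ξ b 1 τ := hτ
  obtain ⟨F, hF⟩ : ∃ F : (Fin t → ℕ) → ℝ, F = fun x => ∑ i, ξ i * (x i : ℝ) ^ k := ⟨_, rfl⟩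
  have hcn : ∀ η τ : ℝ, cn k ξ b η τ = ((Box b).filter fun x => |F x - τ| ≤ η).card := by
    intro η τ
    subst hF
    unfold cn
    congr
  -- four windows of radius 1/4
  have hsub : ((Box b).filter fun x => |F x - τ| ≤ 1) ⊆
      (((Box b).filter fun x => |F x - (τ - 3 / 4)| ≤ 1 / 4) ∪ ((Box b).filter fun x => |F x - (τ - 1 / 4)| ≤ 1 / 4)) ∪
      (((Box b).filter fun x => |F x - (τ + 1 / 4)| ≤ 1 / 4) ∪ ((Box b).filter fun x => |F x - (τ + 3 / 4)| ≤ 1 / 4)) := by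
    intro x hx
    rw [mem_filter] at hx
    obtain ⟨hx1, hx2⟩ := hx
    rw [abs_le] at hx2
    simp only [mem_union, mem_filter, hx1, true_and, abs_le]
    by_cases h1 : F x ≤ τ - 1 / 2
    · left; left
      constructor <;> linarith
    by_cases h2 : F x ≤ τ
    · left; right
      constructor <;> linarith
    by_cases h3 : F x ≤ τ + 1 / 2
    · right; left
      constructor <;> linarith
    · right; right
      constructor <;> linarith
  have hcard := card_le_card hsub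
  have h4 := hcard.trans ((card_union_le _ _).trans (add_le_add (card_union_le _ _) (card_union_le _ _)))
  rw [← hcn 1 τ, ← hcn, ← hcn, ← hcn, ← hcn] at h4
  have h5 : ∃ τ₀ : ℝ, (2 : ℝ) ^ l ≤ cn k ξ b (1 / 4) τ₀ := by
    by_contra hno
    push Not at hno
    have e1 := hno (τ - 3 / 4)
    have e2 := hno (τ - 1 / 4)
    have e3 := hno (τ + 1 / 4)
    have e4 := hno (τ + 3 / 4)
    have h6 : (cn k ξ b 1 τ : ℝ) ≤ (cn k ξ b (1 / 4) (τ - 3 / 4) + cn k ξ b (1 / 4) (τ - 1 / 4) : ℝ) +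
      (cn k ξ b (1 / 4) (τ + 1 / 4) + cn k ξ b (1 / 4) (τ + 3 / 4)) := by exact_mod_cast h4
    rw [pow_add] at hτ'
    linarith
  obtain ⟨τ₀, h0⟩ := h5
  have hI : Set.Icc (τ₀ - 3 / 4) (τ₀ + 3 / 4) ⊆ Lv k ξ b l := by
    intro τ' hτ''
    obtain ⟨ha, hb⟩ := hτ''
    have : cn k ξ b (1 / 4) τ₀ ≤ cn k ξ b 1 τ' := by
      rw [hcn, hcn]
      apply card_le_card
      intro x hx
      rw [mem_filter] at hx ⊢
      refine ⟨hx.1, ?_⟩
      have := hx.2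
      rw [abs_le] at this ⊢
      constructor <;> linarith [this.1, this.2]
    have h7 : (cn k ξ b (1 / 4) τ₀ : ℝ) ≤ cn k ξ b 1 τ' := by exact_mod_cast this
    exact h0.trans h7
  calc ENNReal.ofReal (3 / 2) = volume (Set.Icc (τ₀ - 3 / 4) (τ₀ + 3 / 4)) := by
        rw [Real.volume_Icc]
        congr 1
        ring
    _ ≤ _ := measure_mono hI

theorem scale : StScale := by
  intro k t i δ hk hδ hδ1 ξ hS
  obtain ⟨C, hC⟩ := hS
  refine ⟨4 * (C + 1), ?_⟩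
  intro b hb J l hJ hcond
  obtain ⟨z, hz⟩ : ∃ z : ℝ, z = (3 : ℝ) ^ mx b := ⟨_, rfl⟩
  obtain ⟨Z, hZ⟩ : ∃ Z : ℝ, Z = (3 : ℝ) ^ J := ⟨_, rfl⟩
  have hz1 : 1 ≤ z := by rw [hz]; exact one_le_pow₀ (by norm_num)
  have hzZ : z ≤ Z := by rw [hz, hZ]; exact pow_le_pow_right₀ (by norm_num) hJ
  have hZ1 : 1 ≤ Z := hz1.trans hzZ
  have hz0 : 0 < z := by linarith
  have hZ0 : 0 < Z := by linarith
  rw [← hZ] at hcond ⊢
  have hC' : ∀ l' : ℕ, (i = 0 ∨ (C : ℝ) * z ^ ((i : ℝ) - 1 + δ) ≤ 2 ^ l') → volume (Lv k ξ b l') ≤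
      ENNReal.ofReal (C * (z ^ ((k : ℝ) + δ + ((t : ℝ) - k) * 2 ^ i) / (2 ^ l') ^ (2 ^ i))) := by
    intro l' h
    have := hC b hb l'
    rw [← hz, mul_assoc, form z hz0] at this
    exact this h
  rw [mul_assoc, form Z hZ0]
  have hC0 : (0 : ℝ) ≤ C := Nat.cast_nonneg C
  have hcast : ((4 * (C + 1) : ℕ) : ℝ) = 4 * (C + 1) := by push_cast; ring
  rw [hcast] at hcond ⊢
  -- the condition for `b` itself, for a level `l'` with `2 ^ l ≤ 4 * 2 ^ l'`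
  have hcond' : ∀ l' : ℕ, (2 : ℝ) ^ l ≤ 4 * 2 ^ l' → (i = 0 ∨ (C : ℝ) * z ^ ((i : ℝ) - 1 + δ) ≤ 2 ^ l') := by
    intro l' hl'
    rcases hcond with h | h
    · exact Or.inl h
    by_cases hi : i = 0
    · exact Or.inl hi
    right
    have hi1 : (1 : ℝ) ≤ i := by exact_mod_cast Nat.one_le_iff_ne_zero.2 hi
    have hle : z ^ ((i : ℝ) - 1 + δ) ≤ Z ^ ((i : ℝ) - 1 + δ) :=
      Real.rpow_le_rpow hz0.le hzZ (by linarith)
    have h0 : 0 ≤ z ^ ((i : ℝ) - 1 + δ) := Real.rpow_nonneg hz0.le _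
    nlinarith
  by_cases he : 0 ≤ (k : ℤ) + ((t : ℤ) - k) * 2 ^ i
  · have he' : (0 : ℝ) ≤ (k : ℝ) + ((t : ℝ) - k) * 2 ^ i := by exact_mod_cast he
    refine (hC' l (hcond' l (by nlinarith [pow_pos (two_pos : (0 : ℝ) < 2) l]))).trans
      (ENNReal.ofReal_le_ofReal ?_)
    have hle : z ^ ((k : ℝ) + δ + ((t : ℝ) - k) * 2 ^ i) ≤ Z ^ ((k : ℝ) + δ + ((t : ℝ) - k) * 2 ^ i) :=
      Real.rpow_le_rpow hz0.le hzZ (by linarith)
    have h0 : 0 ≤ z ^ ((k : ℝ) + δ + ((t : ℝ) - k) * 2 ^ i) := Real.rpow_nonneg hz0.le _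
    have hD : (0 : ℝ) < (2 ^ l) ^ (2 ^ i) := by positivity
    apply mul_le_mul _ (div_le_div_of_nonneg_right hle hD.le) (by positivity) (by positivity)
    linarith
  · push Not at he
    have hi : i ≠ 0 := by
      rintro rfl
      simp at he
      omega
    have hi1 : (1 : ℝ) ≤ i := by exact_mod_cast Nat.one_le_iff_ne_zero.2 hi
    have he1 : (k : ℤ) + ((t : ℤ) - k) * 2 ^ i ≤ -1 := by omega
    have he' : (k : ℝ) + ((t : ℝ) - k) * 2 ^ i ≤ -1 := by exact_mod_cast he1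
    rcases Set.eq_empty_or_nonempty (Lv k ξ b l) with hem | hne
    · rw [hem, measure_empty]
      exact zero_le
    exfalso
    rcases hcond with h | h
    · exact hi h
    have hZp : 1 ≤ Z ^ ((i : ℝ) - 1 + δ) := Real.one_le_rpow hZ1 (by linarith)
    have h4 : 4 * ((C : ℝ) + 1) ≤ 2 ^ l := by nlinarith
    have hl2 : 2 ≤ l := by
      by_contra hl
      have : l = 0 ∨ l = 1 := by omega
      rcases this with rfl | rfl
      · norm_num at h4; linarith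
      · norm_num at h4; linarith
    obtain ⟨m, rfl⟩ : ∃ m, l = m + 2 := ⟨l - 2, by omega⟩
    have hm : (2 : ℝ) ^ (m + 2) = 4 * 2 ^ m := by rw [pow_add]; ring
    have h5 : (C : ℝ) + 1 ≤ 2 ^ m := by rw [hm] at h4; linarith
    have h6 := (big k t m ξ b hne).trans (hC' m (hcond' m hm.le))
    have h7 : z ^ ((k : ℝ) + δ + ((t : ℝ) - k) * 2 ^ i) ≤ 1 :=
      Real.rpow_le_one_of_one_le_of_nonpos hz1 (by linarith)
    have h8 : (2 : ℝ) ^ m ≤ (2 ^ m) ^ (2 ^ i) := le_self_pow₀ (one_le_pow₀ (by norm_num)) (by positivity)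
    have h9 : (C : ℝ) * (z ^ ((k : ℝ) + δ + ((t : ℝ) - k) * 2 ^ i) / (2 ^ m) ^ (2 ^ i)) ≤ 1 := by
      have hD : (0 : ℝ) < (2 ^ m) ^ (2 ^ i) := by positivity
      rw [mul_div_assoc', div_le_one hD]
      have h0 : 0 ≤ z ^ ((k : ℝ) + δ + ((t : ℝ) - k) * 2 ^ i) := Real.rpow_nonneg hz0.le _
      nlinarith
    have h10 := h6.trans (ENNReal.ofReal_le_ofReal h9)
    rw [ENNReal.ofReal_le_ofReal_iff (by norm_num)] at h10
    norm_num at h10

end Pool.Agent.K7.H94.AG
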